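import Pool.Agent.H83.V.FV

/-!
Row GDL of `lvv_modules`: the codes of the labels.
-/

set_option autoImplicit false

namespace Pool.Agent.H63.V

open Pool.Agent.H83.V

/-- base 3: the value is small -/
theorem lt3 : ∀ (m : ℕ) (f : Fin m → ℕ), (∀ i, f i < 3) → ∑ i : Fin m, f i * 3 ^ (i : ℕ) < 3 ^ m
  | 0, f, _ => by simp
  | m + 1, f, hf => by
    rw [Fin.sum_univ_succ]
    have h := lt3 m (fun i => f i.succ) fun i => hf _
    have e : ∑ i : Fin m, f i.succ * 3 ^ ((i.succ : Fin (m + 1)) : ℕ) =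
        3 * ∑ i : Fin m, f i.succ * 3 ^ (i : ℕ) := by
      rw [Finset.mul_sum]
      refine Finset.sum_congr rfl fun i _ => ?_
      rw [Fin.val_succ, pow_succ]
      ring
    rw [e]
    have h0 := hf 0
    simp only [Fin.val_zero, pow_zero, mul_one]
    have h3 : 3 ^ (m + 1) = 3 * 3 ^ m := by rw [pow_succ]; ring
    omega

/-- base 3: the value determines the digits -/
theorem inj3 : ∀ (m : ℕ) (f g : Fin m → ℕ), (∀ i, f i < 3) → (∀ i, g i < 3) →
    ∑ i : Fin m, f i * 3 ^ (i : ℕ) = ∑ i : Fin m, g i * 3 ^ (i : ℕ) → f = g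
  | 0, f, g, _, _, _ => by
    funext i
    exact i.elim0
  | m + 1, f, g, hf, hg, h => by
    rw [Fin.sum_univ_succ, Fin.sum_univ_succ] at h
    have e : ∀ f : Fin (m + 1) → ℕ, ∑ i : Fin m, f i.succ * 3 ^ ((i.succ : Fin (m + 1)) : ℕ) =
        3 * ∑ i : Fin m, f i.succ * 3 ^ (i : ℕ) := by
      intro f
      rw [Finset.mul_sum]
      refine Finset.sum_congr rfl fun i _ => ?_
      rw [Fin.val_succ, pow_succ]
      ring
    rw [e, e] at h
    simp only [Fin.val_zero, pow_zero, mul_one] at h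
    have h0 := hf 0
    have h1 := hg 0
    have h2 : f 0 = g 0 := by omega
    have h3 : ∑ i : Fin m, f i.succ * 3 ^ (i : ℕ) = ∑ i : Fin m, g i.succ * 3 ^ (i : ℕ) := by
      omega
    have h4 := inj3 m (fun i => f i.succ) (fun i => g i.succ) (fun i => hf _) (fun i => hg _) h3
    funext i
    refine Fin.cases h2 (fun j => congrFun h4 j) i

theorem dig_lt {m : ℕ} {v : Fin m → ℤ} (hv : v ∈ Sg m) (i : Fin m) : (v i + 1).toNat < 3 := by
  rcases hv i with h | h | h <;> rw [h] <;> decide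

theorem wc_lt {m : ℕ} {v : Fin m → ℤ} (hv : v ∈ Sg m) : wc v < 3 ^ m :=
  lt3 m _ fun i => dig_lt hv i

theorem wc_inj {m : ℕ} {v w : Fin m → ℤ} (hv : v ∈ Sg m) (hw : w ∈ Sg m) (h : wc v = wc w) :
    v = w := by
  have h1 := inj3 m (fun i => (v i + 1).toNat) (fun i => (w i + 1).toNat) (fun i => dig_lt hv i)
    (fun i => dig_lt hw i) h
  funext i
  have h2 : (v i + 1).toNat = (w i + 1).toNat := congrFun h1 i
  rcases hv i with a | a | a <;> rcases hw i with b | b | b <;> omega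

theorem pf_GDL : T_GDL := by
  classical
  intro m I
  refine ⟨fun b v hv w hw i hi h0 h1 => hv.2 v hv.1 w hw.1 i hi h0 h1, fun b v hv => hv.1.1,
    fun G hG => ?_, fun b b' h => ?_⟩
  · refine ⟨fun s => decide (∃ v, v ∈ Sg m ∧ v ∈ G ∧ wc v = s), fun s hs => ?_, fun v hv hvG => ?_⟩
    · refine decide_eq_false ?_
      rintro ⟨v, hv, _, rfl⟩
      exact absurd (wc_lt hv) (not_lt.2 hs)
    · refine ⟨⟨hv, decide_eq_true ⟨v, hv, hvG, rfl⟩⟩, ?_⟩
      have hs : ∀ v, v ∈ Gb m (fun s => decide (∃ v, v ∈ Sg m ∧ v ∈ G ∧ wc v = s)) → v ∈ G := by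
        rintro v ⟨h1, h2⟩
        obtain ⟨w, hw, hwG, e⟩ := of_decide_eq_true h2
        rw [← wc_inj hw h1 e]
        exact hwG
      intro v hv w hw
      exact hG v (hs v hv) w (hs w hw)
  · have e : Gb m b = Gb m b' := by
      ext v
      constructor
      · rintro ⟨h1, h2⟩
        exact ⟨h1, by rw [← h _ (wc_lt h1)]; exact h2⟩
      · rintro ⟨h1, h2⟩
        exact ⟨h1, by rw [h _ (wc_lt h1)]; exact h2⟩
    unfold Gd
    rw [e]

end Pool.Agent.H63.V
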